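import Mathlib

/-!
# The combinatorial lemma of Fortnow and Santhanam
-/

set_option autoImplicit false

namespace Pool.Agent.W900.FS

open Finset

variable {α β : Type} [DecidableEq α] [DecidableEq β]

open Classical in
/-- the elements covered by the value `y` -/
noncomputable def cov {t : ℕ} (X : Finset α) (G : (Fin t → α) → β) (y : β) : Finset α :=
  X.filter fun z => ∃ v : Fin t → α, (∀ i, v i ∈ X) ∧ (∃ i, v i = z) ∧ G v = y

open Classical in
theorem exists_half {t : ℕ} {X : Finset α} {Y : Finset β} {G : (Fin t → α) → β}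
    (hG : ∀ v : Fin t → α, (∀ i, v i ∈ X) → G v ∈ Y) (hY : Y.card < 2 ^ t) (hX : X.Nonempty)
    (ht : 0 < t) : ∃ y ∈ Y, X.card ≤ 2 * (cov X G y).card := by
  by_contra hcon
  push Not at hcon
  have h1 : (Fintype.piFinset fun _ : Fin t => X).card = X.card ^ t := by
    rw [Fintype.card_piFinset_const]
  have h2 : ∀ y ∈ Y, ((Fintype.piFinset fun _ : Fin t => X).filter fun v => G v = y).card ≤
      (cov X G y).card ^ t := by
    intro y _
    rw [← Fintype.card_piFinset_const]
    apply card_le_card
    intro v hv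
    rw [mem_filter, Fintype.mem_piFinset] at hv
    rw [Fintype.mem_piFinset]
    intro i
    unfold cov
    rw [mem_filter]
    exact ⟨hv.1 i, v, hv.1, ⟨i, rfl⟩, hv.2⟩
  have h3 : (Fintype.piFinset fun _ : Fin t => X).card = ∑ y ∈ Y,
      ((Fintype.piFinset fun _ : Fin t => X).filter fun v => G v = y).card := by
    apply card_eq_sum_card_fiberwise
    intro v hv
    rw [mem_coe, Fintype.mem_piFinset] at hv
    exact hG v hv
  have hX0 : 0 < X.card := card_pos.2 hX
  have h4 : 2 ^ t * X.card ^ t ≤ Y.card * X.card ^ t := by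
    calc 2 ^ t * X.card ^ t = 2 ^ t * ∑ y ∈ Y,
          ((Fintype.piFinset fun _ : Fin t => X).filter fun v => G v = y).card := by
          rw [← h1, h3]
      _ ≤ 2 ^ t * ∑ y ∈ Y, (cov X G y).card ^ t :=
          Nat.mul_le_mul_left _ (sum_le_sum h2)
      _ = ∑ y ∈ Y, (2 * (cov X G y).card) ^ t := by
          rw [mul_sum]
          exact sum_congr rfl fun y _ => by rw [mul_pow]
      _ ≤ ∑ _y ∈ Y, X.card ^ t :=
          sum_le_sum fun y hy => Nat.pow_le_pow_left (hcon y hy).le t
      _ = Y.card * X.card ^ t := by rw [sum_const, smul_eq_mul]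
  have h5 : 0 < X.card ^ t := by positivity
  have h6 := Nat.le_of_mul_le_mul_right h4 h5
  omega

open Classical in
/-- **The lemma of Fortnow and Santhanam.** -/
theorem exists_list {t : ℕ} {Y : Finset β} {G : (Fin t → α) → β} (hY : Y.card < 2 ^ t)
    (ht : 0 < t) : ∀ (k : ℕ) (X : Finset α), X.card < 2 ^ k →
      (∀ v : Fin t → α, (∀ i, v i ∈ X) → G v ∈ Y) →
      ∃ ys : List β, ys.length ≤ k ∧ (∀ y ∈ ys, y ∈ Y) ∧ ∀ z ∈ X, ∃ v : Fin t → α,
        (∀ i, v i ∈ X) ∧ (∃ i, v i = z) ∧ G v ∈ ys := by
  intro k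
  induction k with
  | zero =>
    intro X hX _
    have : X = ∅ := by
      rw [← card_eq_zero]
      simpa using hX
    subst this
    exact ⟨[], by simp, by simp, by simp⟩
  | succ k ih =>
    intro X hX hG
    rcases X.eq_empty_or_nonempty with h | hne
    · subst h
      exact ⟨[], by simp, by simp, by simp⟩
    · obtain ⟨y, hy, h1⟩ := exists_half hG hY hne ht
      have hsub : cov X G y ⊆ X := filter_subset _ _
      have h2 : (X \ cov X G y).card < 2 ^ k := by
        rw [card_sdiff_of_subset hsub]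
        rw [pow_succ] at hX
        have := card_le_card hsub
        omega
      obtain ⟨ys, h3, h4, h5⟩ := ih (X \ cov X G y) h2 (fun v hv => hG v fun i =>
        (mem_sdiff.1 (hv i)).1)
      refine ⟨y :: ys, by simp; omega, ?_, fun z hz => ?_⟩
      · intro y' hy'
        rcases List.mem_cons.1 hy' with rfl | h6
        · exact hy
        · exact h4 y' h6
      · by_cases hzc : z ∈ cov X G y
        · unfold cov at hzc
          rw [mem_filter] at hzc
          obtain ⟨_, v, h6, h7, h8⟩ := hzc
          exact ⟨v, h6, h7, by rw [h8]; exact List.mem_cons_self⟩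
        · obtain ⟨v, h6, h7, h8⟩ := h5 z (mem_sdiff.2 ⟨hz, hzc⟩)
          exact ⟨v, fun i => (mem_sdiff.1 (h6 i)).1, h7, List.mem_cons_of_mem _ h8⟩

end Pool.Agent.W900.FS
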