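import Pool.Agent.W900.FS.Main
import Pool.Agent.W900.CH.NELev

/-!
# If `P = NP` then all `NP`-complete sets have distillations
-/

set_option autoImplicit false

namespace Pool.Agent.W900.FS

open Finset Pool.Agent.NPC Pool.Agent.H620R2.Gauge Pool.Agent.H593R3.DST
open Pool.Agent.H622R2 (poly_pairBits)
open Pool.Agent.W900.IE (PA IsQ QC poly_u1 poly_u2 isQ_pa_iff)

attribute [local irreducible] unpair

theorem length_le_enc_mem {x : List Bool} : ∀ {xs : List (List Bool)}, x ∈ xs →
    x.length ≤ (enc xs).length := by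
  intro xs
  induction xs with
  | nil => intro h; simp at h
  | cons y xs ih =>
    intro h
    rw [enc, length_pairBits]
    rcases List.mem_cons.1 h with rfl | h
    · omega
    · have := ih h
      omega

theorem isPSPACE_of_np {A : Oracle} {L : Set (List Bool)}
    (h : Pool.Agent.H877R3.Join.IsNP A L) : IsPSPACE A L := by
  obtain ⟨V, p, hV, hL⟩ := h
  refine IsPH.isPSPACE (IsNP.isPH ?_)
  refine ⟨fun u => V (pairBits (unpair u).2 (unpair u).1), p,
    hV.precomp (poly_pairBits poly_u2 poly_u1), fun x => ?_⟩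
  simpa only [unpair_pairBits] using hL x

/-- The set of the lists with an element in `R`. -/
def orSet (R : Set (List Bool)) : Set (List Bool) := {y | ∃ xs, y = enc xs ∧ ∃ x ∈ xs, x ∈ R}

theorem mem_orSet {R : Set (List Bool)} {xs : List (List Bool)} :
    enc xs ∈ orSet R ↔ ∃ x ∈ xs, x ∈ R := by
  constructor
  · rintro ⟨ys, h1, h2⟩
    rwa [enc_inj h1]
  · intro h
    exact ⟨xs, rfl, h⟩

theorem orSet_np {A : Oracle} {R : Set (List Bool)} (hR : Pool.Agent.H877R3.Join.IsNP A R) :
    Pool.Agent.H877R3.Join.IsNP A (orSet R) := by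
  obtain ⟨V, p, hV, hR⟩ := hR
  refine ⟨fun u => [(decide (enc (ub (unpair (unpair u).2).1) = (unpair u).1) &&
      (decide ((unpair (unpair (unpair u).2).2).1 ∈ ub (unpair (unpair u).2).1) &&
        decide ((unpair (unpair (unpair u).2).2).2.length ≤
          p.eval (unpair (unpair (unpair u).2).2).1.length))) &&
      decide (V (pairBits (unpair (unpair (unpair u).2).2).1
        (unpair (unpair (unpair u).2).2).2) = [true])],
    Polynomial.C 2 * (Polynomial.X * (Polynomial.C 4 * Polynomial.X + Polynomial.C 2) +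
      Polynomial.C 1) + Polynomial.C 1 + (Polynomial.C 2 * Polynomial.X + Polynomial.C 1 + p),
    ?_, fun y => ?_⟩
  · have h1 : IsFP A (fun u => V (pairBits (unpair (unpair (unpair u).2).2).1
        (unpair (unpair (unpair u).2).2).2)) :=
      hV.precomp (poly_pairBits (poly_u1.comp (poly_u2.comp poly_u2))
        (poly_u2.comp (poly_u2.comp poly_u2)))
    have h2 := IsFP.pair (IsFP.of_poly (A := A) Poly.id) h1
    have h3 : Poly (fun c : List Bool =>
        [(decide (enc (ub (unpair (unpair (unpair c).1).2).1) = (unpair (unpair c).1).1) &&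
          (decide ((unpair (unpair (unpair (unpair c).1).2).2).1 ∈
            ub (unpair (unpair (unpair c).1).2).1) &&
          decide ((unpair (unpair (unpair (unpair c).1).2).2).2.length ≤
            p.eval (unpair (unpair (unpair (unpair c).1).2).2).1.length))) &&
          decide ((unpair c).2 = [true])]) := by
      refine Poly.cons (Poly.and (Poly.and ?_ (Poly.and ?_ ?_)) (Poly.decide_eq poly_u2
        (NPC.Poly.const [true]))) (NPC.Poly.const [])
      · exact Poly.decide_eq (poly_enc (poly_ub (poly_u1.comp (poly_u2.comp poly_u1))))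
          (poly_u1.comp poly_u1)
      · exact (Poly.decide_mem (poly_u1.comp (poly_u2.comp (poly_u2.comp poly_u1)))
          (poly_ub (poly_u1.comp (poly_u2.comp poly_u1)))).congr
            fun c => decide_eq_decide.2 Iff.rfl
      · exact Poly.decide_le (Poly.length (poly_u2.comp (poly_u2.comp (poly_u2.comp poly_u1))))
          (UPoly.eval (UPoly.length (poly_u1.comp (poly_u2.comp (poly_u2.comp poly_u1))))
            p).toPoly
    have h4 := IsFP.comp (IsFP.of_poly (A := A) h3) h2
    obtain ⟨M, hM⟩ := h4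
    refine ⟨M, fun u => ?_⟩
    rw [hM u]
    simp only [unpair_pairBits]
  · simp only [orSet, Set.mem_ofPred_eq, List.cons.injEq, and_true, Bool.and_eq_true,
      decide_eq_true_eq]
    constructor
    · rintro ⟨xs, rfl, x, hx, hxR⟩
      obtain ⟨w, h1, h2⟩ := (hR x).1 hxR
      refine ⟨pairBits (bits xs) (pairBits x w), ?_, ?_⟩
      · have h3 := length_le_enc_mem hx
        have h4 := bits_len_le xs (fun x hx => length_le_enc_mem hx)
        have h5 := length_le_enc xs
        have h6 : xs.length * (4 * (enc xs).length + 2) ≤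
            (enc xs).length * (4 * (enc xs).length + 2) := Nat.mul_le_mul_right _ h5
        have h7 := h1.trans (eval_mono p h3)
        rw [length_pairBits, length_pairBits]
        simp only [Polynomial.eval_add, Polynomial.eval_mul, Polynomial.eval_C,
          Polynomial.eval_X]
        omega
      · simp only [unpair_pairBits, ub_bits]
        exact ⟨⟨trivial, hx, h1⟩, h2⟩
    · rintro ⟨w, _, ⟨h1, h2, h3⟩, h4⟩
      simp only [unpair_pairBits] at h1 h2 h3 h4
      exact ⟨ub (unpair w).1, h1.symm, _, h2, (hR _).2 ⟨_, h3, h4⟩⟩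

theorem isNP_of_isP {A : Oracle} {L : Set (List Bool)} (h : IsP A L) :
    Pool.Agent.H877R3.Join.IsNP A L := by
  obtain ⟨V, hV, hL⟩ := h
  refine ⟨fun u => V (unpair u).1, 0, hV.precomp poly_u1, fun x => ?_⟩
  rw [hL x]
  simp only [unpair_pairBits]
  exact ⟨fun h => ⟨[], by simp, h⟩, fun ⟨_, _, h⟩ => h⟩

theorem isP_compl {A : Oracle} {L : Set (List Bool)} (h : IsP A L) : IsP A Lᶜ := by
  obtain ⟨V, hV, hL⟩ := h
  have h1 : Poly (fun c : List Bool => [!decide (c = [true])]) :=
    Poly.cons (Poly.not (Poly.decide_eq Poly.id (NPC.Poly.const [true]))) (NPC.Poly.const [])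
  refine ⟨fun x => [!decide (V x = [true])], IsFP.comp (IsFP.of_poly (A := A) h1) hV,
    fun x => ?_⟩
  rw [Set.mem_compl_iff, hL x]
  simp

theorem isFP_ite {A : Oracle} {L : Set (List Bool)} (h : IsP A L) (a b : List Bool) :
    ∃ F, IsFP A F ∧ (∀ x, x ∈ L → F x = a) ∧ ∀ x, x ∉ L → F x = b := by
  obtain ⟨V, hV, hL⟩ := h
  have h1 : Poly (fun c : List Bool => if c = [true] then a else b) :=
    Poly.ite (Poly.decide_eq Poly.id (NPC.Poly.const [true])) (NPC.Poly.const a)
      (NPC.Poly.const b)
  refine ⟨fun x => if V x = [true] then a else b, IsFP.comp (IsFP.of_poly (A := A) h1) hV,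
    fun x hx => if_pos ((hL x).1 hx), fun x hx => if_neg fun h => hx ((hL x).2 h)⟩

/-- If `P = NP` relative to `A`, then the `NP`-complete sets have OR- and AND-distillations. -/
theorem compress {A : Oracle} (hP : ∀ L, Pool.Agent.H877R3.Join.IsNP A L → IsP A L)
    {R : Set (List Bool)} (hR : Pool.Agent.H877R3.Join.IsNP A R) (hH : NPHardRel A R) :
    ORCompression A R R ∧ ANDCompression A R R := by
  classical
  have hu : IsP A (Set.univ : Set (List Bool)) :=
    ⟨fun _ => [true], IsFP.of_poly (NPC.Poly.const [true]), fun x => by simp⟩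
  obtain ⟨f, _, hf⟩ := hH _ (isNP_of_isP hu)
  obtain ⟨f', _, hf'⟩ := hH _ (isNP_of_isP (isP_compl hu))
  have ha : f [] ∈ R := (hf []).1 trivial
  have hb : f' [] ∉ R := fun h => by
    have := (hf' []).2 h
    simp at this
  obtain ⟨F, hF, hF1, hF2⟩ := isFP_ite (hP _ (orSet_np hR)) (f []) (f' [])
  obtain ⟨G, hG, hG1, hG2⟩ := isFP_ite
    (hP _ (orSet_np (isNP_of_isP (isP_compl (hP R hR))))) (f' []) (f [])
  refine ⟨⟨F, Polynomial.C ((f []).length + (f' []).length), hF, fun xs n _ _ => ?_⟩,
    ⟨G, Polynomial.C ((f []).length + (f' []).length), hG, fun xs n _ _ => ?_⟩⟩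
  · rw [Polynomial.eval_C, ← mem_orSet]
    by_cases h : enc xs ∈ orSet R
    · rw [hF1 _ h]
      exact ⟨Nat.le_add_right _ _, iff_of_true ha h⟩
    · rw [hF2 _ h]
      exact ⟨Nat.le_add_left _ _, iff_of_false hb h⟩
  · rw [Polynomial.eval_C]
    have h0 : (∀ x ∈ xs, x ∈ R) ↔ ¬ enc xs ∈ orSet Rᶜ := by
      rw [mem_orSet]
      push Not
      simp
    rw [h0]
    by_cases h : enc xs ∈ orSet Rᶜ
    · rw [hG1 _ h]
      exact ⟨Nat.le_add_left _ _, iff_of_false hb (fun h' => h' h)⟩
    · rw [hG2 _ h]
      exact ⟨Nat.le_add_right _ _, iff_of_true ha h⟩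

end Pool.Agent.W900.FS
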