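import Pool.Agent.W900.FS.Comb
import Pool.Agent.W900.IE.Yap
import Pool.Agent.W900.OC.Neg
import Pool.Agent.H593R3.DST.A5

/-!
# The theorem of Fortnow and Santhanam relative to oracles
-/

set_option autoImplicit false

namespace Pool.Agent.W900.FS

open Finset Pool.Agent.NPC Pool.Agent.H620R2.Gauge Pool.Agent.H593R3.DST
open Pool.Agent.H591R3.PHG (IsSig IsSigPoly)
open Pool.Agent.H622R2 (poly_pairBits)
open Pool.Agent.W900.IE (PA IsQ QC poly_u1 poly_u2 isQ_pa_iff)
open Pool.Agent.W900.BC (firsts mem_firsts)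

attribute [local irreducible] unpair

theorem enc_eq (xs : List (List Bool)) :
    enc xs = xs.foldr (fun x acc => pairBits x acc) [] := by
  induction xs with
  | nil => rfl
  | cons x xs ih => rw [enc, List.foldr_cons, ih]

theorem length_enc_le (xs : List (List Bool)) : (enc xs).length ≤ 2 * sz xs := by
  induction xs with
  | nil => simp [enc]
  | cons x xs ih =>
    rw [enc, length_pairBits]
    have h1 := length_lt_sz x
    have h2 : sz (x :: xs) = sz x + sz xs + 1 := by simp
    omega

theorem sz_drop_le (L : List (List Bool)) : ∀ k : ℕ, sz (L.drop k) ≤ sz L := by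
  induction L with
  | nil => intro k; simp
  | cons x L ih =>
    intro k
    cases k with
    | zero => simp
    | succ k =>
      rw [List.drop_succ_cons]
      have h4 := ih k
      have h5 : sz (x :: L) = sz x + sz L + 1 := by simp
      omega

theorem exists_len_le (xs : List (List Bool)) : ∃ n : ℕ, ∀ x ∈ xs, x.length ≤ n := by
  induction xs with
  | nil => exact ⟨0, by simp⟩
  | cons a l ih =>
    obtain ⟨n, hn⟩ := ih
    refine ⟨max a.length n, fun x hx => ?_⟩
    rcases List.mem_cons.1 hx with rfl | hx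
    · exact le_max_left _ _
    · exact (hn x hx).trans (le_max_right _ _)

theorem poly_enc {α : Type} [TEnc α] {l : α → List (List Bool)} (hl : Poly l) :
    Poly (fun a => enc (l a)) := by
  obtain ⟨r, hr⟩ := hl.sz_le
  refine (Poly.foldr (F := fun (_ : α) (x acc : List Bool) => pairBits x acc)
    (s := fun _ => ([] : List Bool)) hl (NPC.Poly.const []) ?_
    (Polynomial.C 8 * r + Polynomial.C 1) ?_).congr fun a => (enc_eq (l a)).symm
  · exact poly_pairBits (Poly.fst (Poly.snd Poly.id)) (Poly.snd (Poly.snd Poly.id))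
  · intro a k _
    rw [← enc_eq]
    have h1 := length_enc_le ((l a).drop k)
    have h2 := sz_listBool_le (enc ((l a).drop k))
    have h3 : sz ((l a).drop k) ≤ sz (l a) := sz_drop_le _ _
    have h6 := hr a
    simp only [Polynomial.eval_add, Polynomial.eval_mul, Polynomial.eval_C]
    omega

/-- the decoded list -/
def ub (s : List Bool) : List (List Bool) := (unbits (List (List Bool)) s).getD []

theorem ub_bits (l : List (List Bool)) : ub (bits l) = l := by
  unfold ub
  rw [unbits_bits, Option.getD_some]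

theorem poly_ub {α : Type} [TEnc α] {s : α → List Bool} (hs : Poly s) :
    Poly (fun a => ub (s a)) :=
  Poly.optGetD (poly_unbits.comp hs) (NPC.Poly.const [])

theorem bits_len_le (l : List (List Bool)) {N : ℕ} (h : ∀ x ∈ l, x.length ≤ N) :
    (bits l).length ≤ l.length * (4 * N + 2) + 1 := by
  rw [bits_length]
  have h1 := sz_le_length_mul l (4 * N + 1) (by
    intro a ha
    have h2 := sz_listBool_le a
    have h3 := h a ha
    omega)
  exact h1

theorem card_short (P : List Bool → Prop) [DecidablePred P] (N : ℕ) :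
    ((firsts (2 ^ (N + 1) - 1)).filter (fun z => P z ∧ z.length ≤ N)).card < 2 ^ (N + 1) := by
  have hf : ∀ K, (firsts K).card ≤ K := by
    intro K
    unfold firsts
    refine Finset.card_image_le.trans ?_
    rw [Finset.card_range]
  have h1 := (card_filter_le (firsts (2 ^ (N + 1) - 1)) (fun z => P z ∧ z.length ≤ N)).trans
    (hf _)
  have h2 : 0 < 2 ^ (N + 1) := by positivity
  omega

theorem mem_short {P : List Bool → Prop} [DecidablePred P] {N : ℕ} {z : List Bool} :
    z ∈ (firsts (2 ^ (N + 1) - 1)).filter (fun z => P z ∧ z.length ≤ N) ↔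
      P z ∧ z.length ≤ N := by
  rw [mem_filter, mem_firsts]
  refine ⟨fun h => h.2, fun h => ⟨?_, h⟩⟩
  have h1 := idx_lt z
  have h2 : 2 ^ (z.length + 1) ≤ 2 ^ (N + 1) := Nat.pow_le_pow_right (by norm_num) (by omega)
  omega

/-- **The theorem of Fortnow and Santhanam**: an OR-compression of an `NP`-hard set puts the
second level of the hierarchy into `NP` with advice. -/
theorem fs {A : Oracle} {R S : Set (List Bool)} (hR : NPHardRel A R) (hC : ORCompression A R S)
    {L : Set (List Bool)} (hL : IsSig A 2 L) : IsSigPoly A 1 L := by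
  classical
  obtain ⟨V, p, hV, hL⟩ := hL
  have hL' : ∀ x, x ∈ L ↔ ∃ w : List Bool, w.length ≤ p.eval x.length ∧
      ∀ v : List Bool, v.length ≤ p.eval x.length → V (pairBits v (pairBits w x)) = [true] := by
    intro x
    rw [hL x]
    simp only [Quant]
  -- the set for the inner quantifier
  set L1 : Set (List Bool) := {z | ∃ v : List Bool, v.length ≤ p.eval (unpair z).2.length ∧
    V (pairBits v z) ≠ [true]} with hL1
  have hNP : Pool.Agent.H877R3.Join.IsNP A L1 := by
    refine ⟨fun u => [decide ((unpair u).2.length ≤ p.eval (unpair (unpair u).1).2.length) &&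
      !(decide (V (pairBits (unpair u).2 (unpair u).1) = [true]))], p, ?_, fun z => ?_⟩
    · have h1 : IsFP A (fun u => V (pairBits (unpair u).2 (unpair u).1)) :=
        hV.precomp (poly_pairBits poly_u2 poly_u1)
      have h2 := IsFP.pair (IsFP.of_poly (A := A) Poly.id) h1
      have h3 : Poly (fun c : List Bool =>
          [decide ((unpair (unpair c).1).2.length ≤
            p.eval (unpair (unpair (unpair c).1).1).2.length) &&
          !(decide ((unpair c).2 = [true]))]) := by
        refine Poly.cons (Poly.and ?_ (Poly.not (Poly.decide_eq poly_u2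
          (NPC.Poly.const [true])))) (NPC.Poly.const [])
        exact Poly.decide_le (Poly.length (poly_u2.comp poly_u1))
          (UPoly.eval (UPoly.length (poly_u2.comp (poly_u1.comp poly_u1))) p).toPoly
      have h4 := IsFP.comp (IsFP.of_poly (A := A) h3) h2
      obtain ⟨M, hM⟩ := h4
      refine ⟨M, fun u => ?_⟩
      rw [hM u]
      simp only [unpair_pairBits]
    · simp only [hL1, Set.mem_ofPred_eq, unpair_pairBits, List.cons.injEq, and_true,
        Bool.and_eq_true, decide_eq_true_eq, Bool.not_eq_true', decide_eq_false_iff_not]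
      constructor
      · rintro ⟨v, h1, h2⟩
        refine ⟨v, h1.trans (eval_mono p ?_), h1, h2⟩
        have := unpair_len z
        omega
      · rintro ⟨v, _, h1, h2⟩
        exact ⟨v, h1, h2⟩
  obtain ⟨f, ⟨M, hM⟩, hf⟩ := hR L1 hNP
  obtain ⟨b, hb⟩ := M.out_length
  obtain ⟨F, q, hF, hFS⟩ := hC
  have hx : ∀ x, x ∈ L ↔ ∃ w : List Bool, w.length ≤ p.eval x.length ∧
      f (pairBits w x) ∉ R := by
    intro x
    rw [hL' x]
    refine exists_congr fun w => and_congr_right fun _ => ?_
    rw [← hf]
    simp only [hL1, Set.mem_ofPred_eq, unpair_pairBits]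
    push Not
    rfl
  -- the bounds
  set Nn : Polynomial ℕ := b.comp (Polynomial.C 2 * p + Polynomial.C 1 + Polynomial.X) with hNn
  have hNe : ∀ n, Nn.eval n = b.eval (2 * p.eval n + 1 + n) := by
    intro n
    rw [hNn]
    simp [Polynomial.eval_comp]
  set Qn : Polynomial ℕ := q.comp Nn with hQn
  have hQe : ∀ n, Qn.eval n = q.eval (Nn.eval n) := by
    intro n
    rw [hQn, Polynomial.eval_comp]
  set Bs : Polynomial ℕ := (Qn + Polynomial.C 1) * (Polynomial.C 4 * Nn + Polynomial.C 2) +
    Polynomial.C 1 with hBs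
  set Bp : Polynomial ℕ := Polynomial.C 2 * Bs + Polynomial.C 1 + p with hBp
  set Ba : Polynomial ℕ := (Nn + Polynomial.C 1) * (Polynomial.C 4 * Qn + Polynomial.C 2) +
    Polynomial.C 1 with hBa
  have hBse : ∀ n, Bs.eval n = (Qn.eval n + 1) * (4 * Nn.eval n + 2) + 1 := by
    intro n
    rw [hBs]
    simp
  have hBpe : ∀ n, Bp.eval n = 2 * Bs.eval n + 1 + p.eval n := by
    intro n
    rw [hBp]
    simp
  have hBae : ∀ n, Ba.eval n = (Nn.eval n + 1) * (4 * Qn.eval n + 2) + 1 := by
    intro n
    rw [hBa]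
    simp
  -- the advice
  have hadv : ∀ n : ℕ, ∃ ys : List (List Bool), ys.length ≤ Nn.eval n + 1 ∧
      (∀ y ∈ ys, y ∉ S ∧ y.length ≤ Qn.eval n) ∧
      ∀ z : List Bool, z ∉ R → z.length ≤ Nn.eval n → ∃ xs : List (List Bool),
        xs.length = Qn.eval n + 1 ∧ (∀ x ∈ xs, x.length ≤ Nn.eval n) ∧ z ∈ xs ∧
          F (enc xs) ∈ ys := by
    intro n
    set X := (firsts (2 ^ (Nn.eval n + 1) - 1)).filter
      (fun z => z ∉ R ∧ z.length ≤ Nn.eval n) with hX
    set Y := (firsts (2 ^ (Qn.eval n + 1) - 1)).filter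
      (fun z => z ∉ S ∧ z.length ≤ Qn.eval n) with hY
    have h1 : X.card < 2 ^ (Nn.eval n + 1) := card_short (fun z => z ∉ R) _
    have h2 : Y.card < 2 ^ (Qn.eval n + 1) := card_short (fun z => z ∉ S) _
    have hmX : ∀ z, z ∈ X ↔ z ∉ R ∧ z.length ≤ Nn.eval n := fun z =>
      mem_short (P := fun z => z ∉ R)
    have hmY : ∀ z, z ∈ Y ↔ z ∉ S ∧ z.length ≤ Qn.eval n := fun z =>
      mem_short (P := fun z => z ∉ S)
    obtain ⟨ys, h3, h4, h5⟩ := exists_list (t := Qn.eval n + 1)
      (G := fun v : Fin (Qn.eval n + 1) → List Bool => F (enc (List.ofFn v))) h2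
      (Nat.succ_pos _) (Nn.eval n + 1) X h1 (by
        intro v hv
        have h6 : ∀ x ∈ List.ofFn v, x ∉ R ∧ x.length ≤ Nn.eval n := by
          intro x hx
          obtain ⟨i, rfl⟩ := (List.mem_ofFn' v x).1 hx
          exact (hmX _).1 (hv i)
        obtain ⟨h7, h8⟩ := hFS (List.ofFn v) (Nn.eval n) (by simp) (fun x hx => (h6 x hx).2)
        refine (hmY _).2 ⟨fun h => ?_, h7.trans (le_of_eq (hQe n).symm)⟩
        obtain ⟨x, hx, hx2⟩ := h8.1 h
        exact (h6 x hx).1 hx2)
    refine ⟨ys, h3, fun y hy => (hmY y).1 (h4 y hy), fun z hz hzl => ?_⟩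
    obtain ⟨v, h6, ⟨i, h7⟩, h8⟩ := h5 z ((hmX z).2 ⟨hz, hzl⟩)
    refine ⟨List.ofFn v, List.length_ofFn, fun x hx => ?_, ?_, h8⟩
    · obtain ⟨i, rfl⟩ := (List.mem_ofFn' v x).1 hx
      exact ((hmX _).1 (h6 i)).2
    · rw [← h7]
      exact (List.mem_ofFn' v _).2 ⟨i, rfl⟩
  choose ys hy1 hy2 hy3 using hadv
  -- the predicate
  set v : List Bool → Prop := fun u =>
    (unpair (unpair u).1).2.length ≤ p.eval (unpair (unpair u).2).1.length ∧
    f (pairBits (unpair (unpair u).1).2 (unpair (unpair u).2).1) ∈ ub (unpair (unpair u).1).1 ∧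
      F (enc (ub (unpair (unpair u).1).1)) ∈ ub (unpair (unpair u).2).2 with hv
  have hvP : PA A v := by
    have h1 : IsFP A (fun u => f (pairBits (unpair (unpair u).1).2 (unpair (unpair u).2).1)) :=
      IsFP.precomp ⟨M, hM⟩ (poly_pairBits (poly_u2.comp poly_u1) (poly_u1.comp poly_u2))
    have h2 : IsFP A (fun u => F (enc (ub (unpair (unpair u).1).1))) :=
      hF.precomp (poly_enc (poly_ub (poly_u1.comp poly_u1)))
    have h3 := IsFP.pair (IsFP.of_poly (A := A) Poly.id) (IsFP.pair h1 h2)
    have h4 : Poly (fun c : List Bool =>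
        [decide ((unpair (unpair (unpair c).1).1).2.length ≤
            p.eval (unpair (unpair (unpair c).1).2).1.length) &&
          (decide ((unpair (unpair c).2).1 ∈ ub (unpair (unpair (unpair c).1).1).1) &&
          decide ((unpair (unpair c).2).2 ∈ ub (unpair (unpair (unpair c).1).2).2))]) := by
      refine Poly.cons (Poly.and ?_ (Poly.and ?_ ?_)) (NPC.Poly.const [])
      · exact Poly.decide_le (Poly.length (poly_u2.comp (poly_u1.comp poly_u1)))
          (UPoly.eval (UPoly.length (poly_u1.comp (poly_u2.comp poly_u1))) p).toPoly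
      · exact (Poly.decide_mem (poly_u1.comp poly_u2)
          (poly_ub (poly_u1.comp (poly_u1.comp poly_u1)))).congr
            fun c => decide_eq_decide.2 Iff.rfl
      · exact (Poly.decide_mem (poly_u2.comp poly_u2)
          (poly_ub (poly_u2.comp (poly_u2.comp poly_u1)))).congr
            fun c => decide_eq_decide.2 Iff.rfl
    have h5 := IsFP.comp (IsFP.of_poly (A := A) h4) h3
    refine ⟨_, h5, fun u => ?_⟩
    simp only [unpair_pairBits, hv, List.cons.injEq, and_true, Bool.and_eq_true,
      decide_eq_true_eq]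
  refine ⟨{c | QC (fun c => Bp.eval (unpair c).1.length) v 1 true c},
    fun n => bits (ys n), Ba, isQ_pa_iff.1 ⟨v, _, hvP,
      UPoly.eval (UPoly.length poly_u1) Bp, fun _ => Iff.rfl⟩, fun n => ?_, fun x => ?_⟩
  · rw [hBae]
    refine (bits_len_le (ys n) (fun y hy => (hy2 n y hy).2)).trans ?_
    exact Nat.add_le_add_right (Nat.mul_le_mul_right _ (hy1 n)) 1
  · rw [hx x]
    simp only [Set.mem_ofPred_eq, QC, hv, unpair_pairBits, ub_bits]
    constructor
    · rintro ⟨w, hw, hwR⟩
      have hlen : (f (pairBits w x)).length ≤ Nn.eval x.length := by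
        rw [hNe]
        refine (hb A _ _ (hM _)).trans (eval_mono b ?_)
        rw [length_pairBits]
        omega
      obtain ⟨xs, h1, h2, h3, h4⟩ := hy3 x.length _ hwR hlen
      refine ⟨pairBits (bits xs) w, ?_, ?_⟩
      · rw [length_pairBits, hBpe, hBse]
        have h5 := bits_len_le xs h2
        rw [h1] at h5
        omega
      · rw [unpair_pairBits]
        dsimp only
        rw [ub_bits]
        exact ⟨hw, h3, h4⟩
    · rintro ⟨u, _, h0, h1, h2⟩
      refine ⟨(unpair u).2, h0, fun h3 => ?_⟩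
      obtain ⟨m, hm⟩ := exists_len_le (ub (unpair u).1)
      have h4 := hFS (ub (unpair u).1) m (List.ne_nil_of_mem h1) hm
      exact (hy2 _ _ h2).1 (h4.2.2 ⟨_, h1, h3⟩)

end Pool.Agent.W900.FS
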